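import Pool.Agent.MP_57a8b6_nt.Translate

set_option autoImplicit false

namespace Pool.Agent.Results.MP_57a8b6_nt.PairCriterion

open Pool.Agent.MP_57a8b6_nt.Translate

/-- For a Diophantine pair `{a, b}` the following are equivalent: `a ^ 2 + b ^ 2 + 1` is a square
modulo `a b`; some Diophantine triple `{a, b, c}` has `c = a + b + a b x` with an integer `x`;
there are infinitely many `c` of that shape for which `x > 0` is the abscissa of an integer point
of the induced curve other than `d₊` and `d₋`. -/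
theorem result (a b r : ℤ) (ha : 0 < a) (hb : 0 < b) (hr0 : 0 < r) (hr : a * b + 1 = r ^ 2) :
    List.TFAE
    [∃ X : ℤ, a * b ∣ X ^ 2 - (a ^ 2 + b ^ 2 + 1),
     ∃ c s t x : ℤ, 0 < c ∧ a * c + 1 = s ^ 2 ∧ b * c + 1 = t ^ 2 ∧ c = a + b + a * b * x,
     ∀ M : ℤ, ∃ c s t x y : ℤ, M < c ∧ 0 < s ∧ 0 < t ∧
       a * c + 1 = s ^ 2 ∧ b * c + 1 = t ^ 2 ∧ c = a + b + a * b * x ∧
       y ^ 2 = (a * x + 1) * (b * x + 1) * (c * x + 1) ∧ 0 < x ∧
       x ≠ a + b + c + 2 * a * b * c + 2 * r * s * t ∧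
       x ≠ a + b + c + 2 * a * b * c - 2 * r * s * t] := by
  tfae_have 1 → 3 := by
    rintro ⟨X, hX⟩ M
    obtain ⟨c, s, t, x, hc, hs, ht, h1, h2, h3, hx⟩ := sufficient a b r X ha hb hr0 hr hX M
    obtain ⟨g1, g2⟩ := not_d a b c r s t x ha hb hr0 hs ht hx hr h1 h2 h3
    exact ⟨c, s, t, x, (a * x + 1) * (b * x + 1), hc, hs, ht, h1, h2, h3, by rw [h3]; ring,
      hx, g1, g2⟩
  tfae_have 3 → 2 := by
    intro h
    obtain ⟨c, s, t, x, y, hc, -, -, h1, h2, h3, -⟩ := h 0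
    exact ⟨c, s, t, x, hc, h1, h2, h3⟩
  tfae_have 2 → 1 := by
    rintro ⟨c, s, t, x, -, h1, h2, h3⟩
    exact ⟨s * t, necessary a b c s t x h1 h2 h3⟩
  tfae_finish

end Pool.Agent.Results.MP_57a8b6_nt.PairCriterion
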