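import Pool.Agent.MP_57a8b6_nt.Translate

set_option autoImplicit false

namespace Pool.Agent.Results.MP_57a8b6_nt.WhichElements

open Pool.Agent.MP_57a8b6_nt.Translate

/-- For a positive integer `a` the following are equivalent: `a` is not `2` modulo `4`; some
Diophantine triple `{a, b, c}` has `c = a + b + a b x` with an integer `x`; for infinitely many `b`
there are infinitely many `c` of that shape for which `x > 0` is the abscissa of an integer point
of the induced curve other than `d₊` and `d₋`. -/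
theorem result (a : ℤ) (ha : 0 < a) : List.TFAE
    [a % 4 ≠ 2,
     ∃ b c r s t x : ℤ, 0 < b ∧ 0 < c ∧ a * b + 1 = r ^ 2 ∧ a * c + 1 = s ^ 2 ∧
       b * c + 1 = t ^ 2 ∧ c = a + b + a * b * x,
     ∀ N : ℤ, ∃ b r : ℤ, N < b ∧ a < b ∧ 0 < r ∧ a * b + 1 = r ^ 2 ∧
       ∀ M : ℤ, ∃ c s t x y : ℤ, M < c ∧ b < c ∧ 0 < s ∧ 0 < t ∧
         a * c + 1 = s ^ 2 ∧ b * c + 1 = t ^ 2 ∧ c = a + b + a * b * x ∧
         y ^ 2 = (a * x + 1) * (b * x + 1) * (c * x + 1) ∧ 0 < x ∧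
         x ≠ a + b + c + 2 * a * b * c + 2 * r * s * t ∧
         x ≠ a + b + c + 2 * a * b * c - 2 * r * s * t] := by
  tfae_have 1 → 3 := by
    intro h N
    obtain ⟨b, r, X, hb, hb0, hr0, hr, hX⟩ := family a (max N a) ha h
    refine ⟨b, r, lt_of_le_of_lt (le_max_left _ _) hb, lt_of_le_of_lt (le_max_right _ _) hb,
      hr0, hr, fun M => ?_⟩
    obtain ⟨c, s, t, x, hc, hs, ht, h1, h2, h3, hx⟩ :=
      sufficient a b r X ha hb0 hr0 hr hX (max M b)
    obtain ⟨g1, g2⟩ := not_d a b c r s t x ha hb0 hr0 hs ht hx hr h1 h2 h3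
    exact ⟨c, s, t, x, (a * x + 1) * (b * x + 1), lt_of_le_of_lt (le_max_left _ _) hc,
      lt_of_le_of_lt (le_max_right _ _) hc, hs, ht, h1, h2, h3, by rw [h3]; ring, hx, g1, g2⟩
  tfae_have 3 → 2 := by
    intro h
    obtain ⟨b, r, hb, -, -, hr, h'⟩ := h 0
    obtain ⟨c, s, t, x, y, hc, -, -, -, h1, h2, h3, -⟩ := h' 0
    exact ⟨b, c, r, s, t, x, hb, hc, hr, h1, h2, h3⟩
  tfae_have 2 → 1 := by
    rintro ⟨b, c, r, s, t, x, -, -, hr, h1, h2, h3⟩
    exact not_two_mod_four a b r (s * t) hr (necessary a b c s t x h1 h2 h3)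
  tfae_finish

end Pool.Agent.Results.MP_57a8b6_nt.WhichElements
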